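import Pool.Agent.Lib.MP_5349a4_pr.M.Iface3
import Pool.Agent.Lib.MP_5349a4_pr.M.Base

/-!
# Module GROW ((9.3) of Paper.md): volume growth of the invasion tree
-/

set_option autoImplicit false
open MeasureTheory Set
open scoped ENNReal NNReal

namespace Pool.Agent.Lib.MP_5349a4_pr.H17

open Pool.Agent.Lib.MP_5349a4_pr

/-! ### Properties of `mun` -/

section Mun

variable {d : ℕ}

theorem measurable_nnew (hM : InvMStatement) (i : ℕ) (f : Eu d → ℝ≥0∞) (hf : Measurable f) :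
    Measurable fun ω : Cfg (Eu d) => nnew (pt ω) (0 : Eu d) i f := by
  have h := (hM d i).2.2.2.2.1 Unit (fun _ => f) (hf.comp measurable_snd)
  exact h.comp (f := fun ω : Cfg (Eu d) => ((() : Unit), (0 : Eu d), ω))
    (measurable_const.prodMk (measurable_const.prodMk measurable_id))

theorem measurable_good (hM : InvMStatement) (th : ℕ → ℝ) (i : ℕ) :
    Measurable fun ω : Cfg (Eu d) => ind (good th (pt ω) (0 : Eu d) i) := by
  have h := measurable_ind ((hM d i).2.2.2.1 th)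
  exact h.comp (f := fun ω : Cfg (Eu d) => ((0 : Eu d), ω)) (measurable_const.prodMk measurable_id)

theorem measurable_occ (hM : InvMStatement) (th : ℕ → ℝ) (n : ℕ) (f : Eu d → ℝ≥0∞)
    (hf : Measurable f) : Measurable fun ω : Cfg (Eu d) => occ th (pt ω) (0 : Eu d) n f := by
  unfold occ
  exact Finset.measurable_sum _ fun i _ => (measurable_good hM th i).mul (measurable_nnew hM i f hf)

theorem mun_mono (lam : ℝ≥0) (th : ℕ → ℝ) (L : ℝ) (n : ℕ) {f g : Eu d → ℝ≥0∞}
    (h : ∀ u, f u ≤ g u) : mun d lam th L n f ≤ mun d lam th L n g := by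
  unfold mun occ nnew
  apply lintegral_mono
  intro ω
  apply Finset.sum_le_sum
  intro i _
  exact mul_le_mul_right (ENNReal.tsum_le_tsum fun p => h _) _

theorem mun_mono_n (lam : ℝ≥0) (th : ℕ → ℝ) (L : ℝ) {n m : ℕ} (hnm : n ≤ m) (f : Eu d → ℝ≥0∞) :
    mun d lam th L n f ≤ mun d lam th L m f := by
  unfold mun occ
  apply lintegral_mono
  intro ω
  exact Finset.sum_le_sum_of_subset (Finset.range_mono hnm)

theorem mun_tsum (hM : InvMStatement) (lam : ℝ≥0) (th : ℕ → ℝ) (L : ℝ) (n : ℕ)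
    (f : ℕ → Eu d → ℝ≥0∞) (hf : ∀ j, Measurable (f j)) :
    mun d lam th L n (fun u => ∑' j, f j u) = ∑' j, mun d lam th L n (f j) := by
  unfold mun
  rw [← lintegral_tsum (fun j => (measurable_occ hM th n (f j) (hf j)).aemeasurable)]
  apply lintegral_congr
  intro ω
  unfold occ nnew
  rw [Summable.tsum_finsetSum (fun i _ => ENNReal.summable)]
  apply Finset.sum_congr rfl
  intro i _
  rw [ENNReal.tsum_comm, ENNReal.tsum_mul_left]

theorem mun_const_mul (hM : InvMStatement) (lam : ℝ≥0) (th : ℕ → ℝ) (L : ℝ) (n : ℕ) (c : ℝ≥0∞)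
    (f : Eu d → ℝ≥0∞) (hf : Measurable f) :
    mun d lam th L n (fun u => c * f u) = c * mun d lam th L n f := by
  unfold mun
  rw [← lintegral_const_mul _ (measurable_occ hM th n f hf)]
  apply lintegral_congr
  intro ω
  unfold occ nnew
  rw [Finset.mul_sum]
  apply Finset.sum_congr rfl
  intro i _
  rw [ENNReal.tsum_mul_left]
  ring

/-- the set of new points has at most one element -/
theorem newp_ncard (hI : InvDStatement) (P : Set (Eu d)) (o : Eu d) (hP : P.Finite)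
    (hG : GenO P o) (i : ℕ) : (newp P o i).Subsingleton := by
  have hLF : LF P := fun A _ => hP.subset inter_subset_left
  obtain ⟨h1, _, _, _, _, _, h7, _⟩ := hI d P P o hLF hLF
  rcases i with _ | i
  · exact subsingleton_singleton
  · show (inv P o (i + 1) \ inv P o i).Subsingleton
    have hfin : (inv P o (i + 1)).Finite := (h1 (i + 1)).2.2
    have hmono : ∀ a b, a ≤ b → inv P o a ⊆ inv P o b := by
      intro a b hab
      induction b, hab using Nat.le_induction with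
      | base => exact subset_rfl
      | succ b _ ih => exact ih.trans (h1 b).1
    rcases le_or_gt ((i + 1 : ℕ) : ℕ∞) P.encard with hle | hlt
    · have k1 := (h7 hG (i + 1)).2 hle
      have k2 := (h7 hG i).2 (le_trans (by exact_mod_cast Nat.le_succ i) hle)
      have k3 := Set.ncard_sdiff_add_ncard_of_subset (h1 i).1 hfin
      have k4 : (inv P o (i + 1) \ inv P o i).ncard = 1 := by omega
      intro a ha b hb
      exact (Set.ncard_le_one (hfin.subset sdiff_subset)).1 k4.le a ha b hb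
    · have k0 : P.encard = (P.ncard : ℕ∞) := (hP.cast_ncard_eq).symm
      have k1 := (h7 hG P.ncard).2 k0.ge
      have k2 : (insert o P).ncard = P.ncard + 1 := Set.ncard_insert_of_notMem hG.1 hP
      have k3 : inv P o P.ncard = insert o P :=
        Set.eq_of_subset_of_ncard_le (h1 P.ncard).2.1 (by omega) (hP.insert o)
      have k4 : P.ncard ≤ i := by
        rw [k0] at hlt
        have : P.ncard < i + 1 := by exact_mod_cast hlt
        omega
      have k5 : inv P o (i + 1) \ inv P o i = ∅ := by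
        rw [Set.sdiff_eq_empty]
        exact (h1 (i + 1)).2.1.trans (k3 ▸ hmono _ _ k4)
      rw [k5]
      exact subsingleton_empty

theorem mun_le (hPr : ProbStatement) (hGF : GenFStatement) (hI : InvDStatement) (hd : 1 ≤ d) (lam : ℝ≥0) (th : ℕ → ℝ)
    (L : ℝ) (n : ℕ) (f : Eu d → ℝ≥0∞) (c : ℝ≥0∞) (hf : ∀ u, f u ≤ c) :
    mun d lam th L n f ≤ n * c := by
  have hfinm : IsFiniteMeasure (leb lam (bal (0 : Eu d) L)) := finite_leb lam (dom_bal _ _).2
  obtain ⟨y, hy⟩ : ∃ y : Eu d, y ≠ 0 := by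
    have : Nonempty (Fin d) := ⟨⟨0, by omega⟩⟩
    exact exists_ne 0
  have hae := hGF d lam (bal (0 : Eu d) L) 0 y hd (dom_bal _ _) hy.symm
  have hone : ∫⁻ _ω : Cfg (Eu d), (n * c : ℝ≥0∞) ∂PL (leb lam (bal (0 : Eu d) L)) ≤ n * c := by
    have := (hPr (Eu d) (leb lam (bal (0 : Eu d) L))).1
    rw [lintegral_const, measure_univ, mul_one]
  refine le_trans ?_ hone
  unfold mun
  apply lintegral_mono_ae
  filter_upwards [hae] with ω hω
  have hG : GenO (pt ω) (0 : Eu d) := by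
    refine ⟨hω.1, ?_⟩
    intro a ha b hb c' hc e he
    have hsub : insert (0 : Eu d) (pt ω) ⊆ insert 0 (insert y (pt ω)) :=
      insert_subset_insert (subset_insert _ _)
    exact hω.2.2 a (hsub ha) b (hsub hb) c' (hsub hc) e (hsub he)
  unfold occ
  calc ∑ i ∈ Finset.range n, ind (good th (pt ω) 0 i) * nnew (pt ω) 0 i f
      ≤ ∑ i ∈ Finset.range n, c := by
        apply Finset.sum_le_sum
        intro i _
        have h1 : nnew (pt ω) 0 i f ≤ c := by
          unfold nnew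
          rcases (newp_ncard hI (pt ω) 0 (pt_finite ω) hG i).eq_empty_or_singleton with h | ⟨a, h⟩
          · rw [h]; simp
          · rw [h, tsum_fintype]
            simp [hf]
        calc _ ≤ 1 * c := mul_le_mul' (ind_le_one _) h1
          _ = c := one_mul c
    _ = n * c := by rw [Finset.sum_const, Finset.card_range, nsmul_eq_mul]

end Mun

/-! ### Shells -/

section Shell

variable {d : ℕ}

theorem gmaj_le_const {κ : ℕ} {s : ℝ} (hκ : κ ≤ d) (hs : 1 ≤ s) (u : Eu d) :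
    gmaj d κ 1 s u ≤ ENNReal.ofReal (s ^ κ) := by
  unfold gmaj
  apply ENNReal.ofReal_le_ofReal
  split_ifs with h
  · rw [one_mul]
  · push Not at h
    have hu : 0 < ‖u‖ := by linarith
    rw [one_mul, div_le_iff₀ (by positivity)]
    calc s ^ d = s ^ κ * s ^ (d - κ) := by rw [← pow_add, Nat.add_sub_cancel' hκ]
      _ ≤ s ^ κ * ‖u‖ ^ (d - κ) := by
        gcongr
        linarith

/-- the coefficients of the shells -/
noncomputable def cs (d κ : ℕ) (s : ℝ) : ℕ → ℝ
  | 0 => s ^ κ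
  | j + 1 => s ^ d / (4 * s * 2 ^ j) ^ (d - κ)

theorem cs_nonneg (κ : ℕ) {s : ℝ} (hs : 1 ≤ s) (j : ℕ) : 0 ≤ cs d κ s j := by
  rcases j with _ | j <;> unfold cs <;> positivity

theorem gmaj_shell {κ : ℕ} {s : ℝ} (hs : 1 ≤ s) (u : Eu d) :
    gmaj d κ 1 s u ≤ ∑' j : ℕ, ENNReal.ofReal (cs d κ s j) *
      ind (u ∈ bal (0 : Eu d) (4 * s * 2 ^ j)) := by
  unfold gmaj
  split_ifs with h
  · refine le_trans ?_ (ENNReal.le_tsum 0)
    rw [ind_of, mul_one]
    · unfold cs; rw [one_mul]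
    · unfold bal
      rw [mem_closedBall_zero_iff]
      simpa using h
  · push Not at h
    have hs4 : 0 < 4 * s := by linarith
    obtain ⟨j, hj1, hj2⟩ := exists_nat_pow_near (x := ‖u‖ / (4 * s)) (y := 2)
      (by rw [one_le_div hs4]; exact h.le) (by norm_num)
    rw [le_div_iff₀ hs4] at hj1
    rw [div_lt_iff₀ hs4] at hj2
    refine le_trans ?_ (ENNReal.le_tsum (j + 1))
    rw [ind_of, mul_one]
    · apply ENNReal.ofReal_le_ofReal
      unfold cs
      rw [one_mul]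
      apply div_le_div_of_nonneg_left (by positivity) (by positivity)
      apply pow_le_pow_left₀ (by positivity)
      linarith
    · unfold bal
      rw [mem_closedBall_zero_iff]
      linarith

/-- the bound of one shell -/
noncomputable def es (k : ℕ) : ℕ → ℝ
  | 0 => 4 ^ k
  | j + 1 => 2 ^ k * (1 / 2) ^ j

theorem shell_term {κ k : ℕ} {s : ℝ} (hs : 1 ≤ s) (hd : κ + k + 1 ≤ d) (j : ℕ) :
    cs d κ s j * (4 * s * 2 ^ j) ^ k ≤ s ^ (κ + k) * es k j := by
  have hs0 : 0 < s := by linarith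
  rcases j with _ | j
  · unfold cs es
    rw [pow_zero, mul_one, mul_pow, pow_add]
    apply le_of_eq
    ring
  · unfold cs es
    rw [div_mul_eq_mul_div, div_le_iff₀ (by positivity)]
    obtain ⟨e, rfl⟩ := Nat.exists_eq_add_of_le hd
    have h1 : κ + k + 1 + e - κ = k + (1 + e) := by omega
    rw [h1]
    have h2 : (1 : ℝ) ≤ 4 ^ (1 + e) := one_le_pow₀ (by norm_num)
    have h3 : (1 : ℝ) ≤ (2 ^ j) ^ e := one_le_pow₀ (one_le_pow₀ (by norm_num))
    have h4 : s ^ (κ + k + 1 + e) * (4 * s * 2 ^ (j + 1)) ^ k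
        = (s ^ (κ + k + 1 + e) * 4 ^ k * s ^ k * 2 ^ k * (2 ^ j) ^ k) * (1 * 1) := by
      rw [pow_succ 2 j, mul_pow, mul_pow, mul_pow]
      ring
    have h5 : s ^ (κ + k) * (2 ^ k * (1 / 2) ^ j) * (4 * s * 2 ^ j) ^ (k + (1 + e))
        = (s ^ (κ + k + 1 + e) * 4 ^ k * s ^ k * 2 ^ k * (2 ^ j) ^ k) *
          (4 ^ (1 + e) * (2 ^ j) ^ e) := by
      have h6 : ((1 : ℝ) / 2) ^ j * 2 ^ j = 1 := by
        rw [← mul_pow]; norm_num
      calc s ^ (κ + k) * (2 ^ k * (1 / 2) ^ j) * (4 * s * 2 ^ j) ^ (k + (1 + e))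
          = (s ^ (κ + k + 1 + e) * 4 ^ k * s ^ k * 2 ^ k * (2 ^ j) ^ k) *
            (4 ^ (1 + e) * (2 ^ j) ^ e) * ((1 / 2) ^ j * 2 ^ j) := by
            rw [mul_pow, mul_pow]
            ring
        _ = _ := by rw [h6, mul_one]
    rw [h4, h5]
    apply mul_le_mul_of_nonneg_left _ (by positivity)
    exact mul_le_mul h2 h3 (by norm_num) (by positivity)

theorem tsum_es (k : ℕ) : ∑' j : ℕ, ENNReal.ofReal (es k j) = ENNReal.ofReal (4 ^ k + 2 ^ k * 2) := by
  rw [tsum_eq_zero_add' ENNReal.summable]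
  have h1 : Summable fun j : ℕ => (2 : ℝ) ^ k * (1 / 2) ^ j :=
    (summable_geometric_of_lt_one (by norm_num) (by norm_num)).mul_left _
  have h2 : ∑' j : ℕ, ENNReal.ofReal (es k (j + 1)) = ENNReal.ofReal (2 ^ k * 2) := by
    have h3 : ∑' j : ℕ, (2 : ℝ) ^ k * (1 / 2) ^ j = 2 ^ k * 2 := by
      rw [tsum_mul_left, tsum_geometric_two]
    rw [← h3, ENNReal.ofReal_tsum_of_nonneg (fun j => by positivity) h1]
    rfl
  rw [h2, ENNReal.ofReal_add (by positivity) (by positivity)]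
  rfl

theorem mun_gmaj (hM : InvMStatement) (lam : ℝ≥0) (th : ℕ → ℝ) (L : ℝ) (n κ k : ℕ) (A : ℝ≥0∞)
    (hd : κ + k + 1 ≤ d)
    (hA : ∀ r : ℝ, 1 ≤ r → mun d lam th L n (fun b => ind (b ∈ bal 0 r)) ≤
      A * ENNReal.ofReal (r ^ k)) (s : ℝ) (hs : 1 ≤ s) :
    mun d lam th L n (gmaj d κ 1 s) ≤
      A * ENNReal.ofReal ((4 ^ k + 2 ^ k * 2) * s ^ (κ + k)) := by
  have hmeas : ∀ r : ℝ, Measurable fun u : Eu d => ind (u ∈ bal (0 : Eu d) r) :=
    fun r => measurable_ind (dom_bal (0 : Eu d) r).1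
  refine (mun_mono lam th L n (fun u => gmaj_shell hs u)).trans ?_
  rw [mun_tsum hM lam th L n _ (fun j => (hmeas _).const_mul _)]
  have h1 : ∀ j : ℕ, mun d lam th L n (fun u => ENNReal.ofReal (cs d κ s j) *
      ind (u ∈ bal (0 : Eu d) (4 * s * 2 ^ j))) ≤
      A * ENNReal.ofReal (s ^ (κ + k)) * ENNReal.ofReal (es k j) := by
    intro j
    rw [mun_const_mul hM lam th L n _ _ (hmeas _)]
    have hr : (1 : ℝ) ≤ 4 * s * 2 ^ j := by
      have h2 : (1 : ℝ) ≤ 2 ^ j := one_le_pow₀ (by norm_num)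
      nlinarith
    calc ENNReal.ofReal (cs d κ s j) * mun d lam th L n
          (fun b => ind (b ∈ bal 0 (4 * s * 2 ^ j)))
        ≤ ENNReal.ofReal (cs d κ s j) * (A * ENNReal.ofReal ((4 * s * 2 ^ j) ^ k)) := by
          gcongr
          exact hA _ hr
      _ = A * ENNReal.ofReal (cs d κ s j * (4 * s * 2 ^ j) ^ k) := by
          rw [ENNReal.ofReal_mul (cs_nonneg κ hs j)]
          ring
      _ ≤ A * ENNReal.ofReal (s ^ (κ + k) * es k j) :=
          mul_le_mul_right (ENNReal.ofReal_le_ofReal (shell_term hs hd j)) _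
      _ = A * ENNReal.ofReal (s ^ (κ + k)) * ENNReal.ofReal (es k j) := by
          rw [ENNReal.ofReal_mul (by positivity)]
          ring
  refine (ENNReal.tsum_le_tsum h1).trans ?_
  rw [ENNReal.tsum_mul_left, tsum_es, mul_assoc, ← ENNReal.ofReal_mul (by positivity),
    mul_comm (s ^ (κ + k))]

end Shell

/-! ### Sums -/

theorem geom_bound (γ : ℝ) (hγ : 0 < γ) (m0 : ℕ) (hm0 : 1 ≤ m0) (j : ℕ) :
    ∑ l ∈ Finset.range j, ((2 ^ l * m0 : ℕ) : ℝ) ^ (-γ) ≤
      (m0 : ℝ) ^ (-γ) / (1 - (2 : ℝ) ^ (-γ)) := by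
  have hq0 : 0 ≤ (2 : ℝ) ^ (-γ) := by positivity
  have hq1 : (2 : ℝ) ^ (-γ) < 1 := Real.rpow_lt_one_of_one_lt_of_neg (by norm_num) (by linarith)
  have h1 : ∀ l : ℕ, ((2 ^ l * m0 : ℕ) : ℝ) ^ (-γ) = (m0 : ℝ) ^ (-γ) * ((2 : ℝ) ^ (-γ)) ^ l := by
    intro l
    push_cast
    rw [Real.mul_rpow (by positivity) (by positivity), mul_comm]
    congr 1
    rw [← Real.rpow_natCast (2 : ℝ) l, ← Real.rpow_mul (by norm_num), mul_comm,
      Real.rpow_mul (by norm_num), Real.rpow_natCast]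
  rw [Finset.sum_congr rfl (fun l _ => h1 l), ← Finset.mul_sum, div_eq_mul_inv]
  apply mul_le_mul_of_nonneg_left _ (by positivity)
  rw [← tsum_geometric_of_lt_one hq0 hq1]
  exact (summable_geometric_of_lt_one hq0 hq1).sum_le_tsum _ (fun i _ => by positivity)

open Classical in
theorem small_sum (m0 : ℕ) (X : ℝ) (hX : 0 ≤ X) (j : ℕ) :
    ∑ l ∈ Finset.range j, (if ((2 ^ l * m0 : ℕ) : ℝ) < X then ((2 ^ l * m0 : ℕ) : ℝ) else 0) ≤ 2 * X ∧
    ∑ l ∈ Finset.range j, (if ((2 ^ l * m0 : ℕ) : ℝ) < X then ((2 ^ l * m0 : ℕ) : ℝ) else 0) ≤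
      ((2 ^ j * m0 : ℕ) : ℝ) := by
  induction j with
  | zero =>
    simp only [Finset.range_zero, Finset.sum_empty]
    exact ⟨by positivity, by positivity⟩
  | succ j ih =>
    rw [Finset.sum_range_succ]
    have h1 : ((2 ^ (j + 1) * m0 : ℕ) : ℝ) = 2 * ((2 ^ j * m0 : ℕ) : ℝ) := by
      push_cast; ring
    have h2 : (0 : ℝ) ≤ ((2 ^ j * m0 : ℕ) : ℝ) := by positivity
    split_ifs with h
    · constructor
      · linarith [ih.2]
      · linarith [ih.2]
    · constructor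
      · linarith [ih.1]
      · linarith [ih.2]

theorem half_absorb (A a : ℝ≥0∞) (hA : A ≠ ∞) (h : A ≤ a + A / 2) : A ≤ 2 * a := by
  have h1 : A / 2 + A / 2 ≤ a + A / 2 := by rwa [ENNReal.add_halves]
  have h2 : A / 2 ≤ a := (ENNReal.add_le_add_iff_right (ENNReal.div_ne_top hA (by norm_num))).1 h1
  rw [ENNReal.div_le_iff (by norm_num) (by norm_num)] at h2
  rwa [mul_comm]

open Classical in
theorem grow (hRec : RecStatement) (hGF : GenFStatement) (hI : InvDStatement)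
    (hM : InvMStatement) (hPr : ProbStatement) : GrowStatement := by
  intro d lam κ Ac hcrit
  obtain ⟨C, hC, hrec⟩ := hRec d lam κ Ac hcrit
  have hκ := hcrit.hκ
  have hd := hcrit.hd
  have hd1 : 1 ≤ d := by nlinarith
  set k := 13 * κ ^ 2 with hk
  have hκk : κ + k + 1 ≤ d := by nlinarith
  set Kc : ℝ := 4 ^ k + 2 ^ k * 2 with hKc
  have hKc0 : 0 < Kc := by positivity
  have hκR : (0 : ℝ) < κ := by exact_mod_cast hκ
  set γ : ℝ := 1 / (12 * (κ : ℝ)) with hγ
  have hγ0 : 0 < γ := by positivity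
  set q : ℝ := (2 : ℝ) ^ (-γ) with hq
  have hq1 : q < 1 := Real.rpow_lt_one_of_one_lt_of_neg (by norm_num) (by linarith)
  -- choice of M
  obtain ⟨M, hMM⟩ : ∃ M : ℕ, ∀ m0 : ℕ, M ≤ m0 → 1 ≤ m0 ∧
      C * Kc * ((m0 : ℝ) ^ (-γ) / (1 - q)) ≤ 1 / 2 := by
    have h1 : Filter.Tendsto (fun m : ℕ => ((m : ℕ) : ℝ) ^ (-γ)) Filter.atTop (nhds 0) :=
      (tendsto_rpow_neg_atTop hγ0).comp tendsto_natCast_atTop_atTop
    have h2 : 0 < (1 - q) / (2 * C * Kc) := by
      have : 0 < 1 - q := by linarith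
      positivity
    have h3 := (h1.eventually (gt_mem_nhds h2)).and (Filter.eventually_ge_atTop 1)
    obtain ⟨M, hM⟩ := Filter.eventually_atTop.1 h3
    refine ⟨M, fun m0 hm0 => ?_⟩
    obtain ⟨k1, k2⟩ := hM m0 hm0
    refine ⟨k2, ?_⟩
    have h4 : 0 < 1 - q := by linarith
    rw [← mul_div_assoc, div_le_iff₀ h4]
    rw [lt_div_iff₀ (by positivity)] at k1
    linarith
  refine ⟨M, ?_⟩
  intro m0 hm0
  obtain ⟨hm1, hMs⟩ := hMM m0 hm0
  refine ⟨10 * C, by positivity, ?_⟩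
  intro n L s hs
  -- the statement for n = 2 ^ K * m0
  suffices hmain : ∀ (K : ℕ) (s : ℝ), 1 ≤ s →
      mun d lam (thr κ m0) L (2 ^ K * m0) (fun b => ind (b ∈ bal 0 s)) ≤
        ENNReal.ofReal (10 * C * s ^ k) by
    obtain ⟨K, hK⟩ : ∃ K : ℕ, n ≤ 2 ^ K * m0 :=
      ⟨n, (Nat.lt_two_pow_self).le.trans (Nat.le_mul_of_pos_right _ hm1)⟩
    exact (mun_mono_n lam _ L hK _).trans (hmain K s hs)
  clear s hs n
  intro K
  set μ : ℕ → ℝ → ℝ≥0∞ := fun j s =>
    mun d lam (thr κ m0) L (2 ^ j * m0) (fun b => ind (b ∈ bal 0 s)) with hμ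
  have hμle : ∀ (j : ℕ) (s : ℝ), μ j s ≤ ((2 ^ j * m0 : ℕ) : ℝ≥0∞) := by
    intro j s
    have := mun_le hPr hGF hI hd1 lam (thr κ m0) L (2 ^ j * m0)
      (fun b => ind (b ∈ bal 0 s)) 1 (fun u => ind_le_one _)
    rwa [mul_one] at this
  -- the supremum
  set A : ℝ≥0∞ := ⨆ j : Fin (K + 1), ⨆ s : {s : ℝ // 1 ≤ s}, μ j s / ENNReal.ofReal ((s : ℝ) ^ k)
    with hAdef
  have hAfin : A ≠ ∞ := by
    have h1 : A ≤ ((2 ^ K * m0 : ℕ) : ℝ≥0∞) := by
      apply iSup_le
      intro j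
      apply iSup_le
      intro s
      have h2 : (1 : ℝ≥0∞) ≤ ENNReal.ofReal ((s : ℝ) ^ k) := by
        rw [← ENNReal.ofReal_one]
        exact ENNReal.ofReal_le_ofReal (one_le_pow₀ s.2)
      refine (ENNReal.div_le_of_le_mul ?_)
      refine (hμle j s).trans ?_
      have h3 : ((2 ^ (j : ℕ) * m0 : ℕ) : ℝ≥0∞) ≤ ((2 ^ K * m0 : ℕ) : ℝ≥0∞) := by
        have : 2 ^ (j : ℕ) * m0 ≤ 2 ^ K * m0 :=
          Nat.mul_le_mul_right _ (Nat.pow_le_pow_right (by norm_num) (by omega))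
        exact_mod_cast this
      calc _ ≤ ((2 ^ K * m0 : ℕ) : ℝ≥0∞) * 1 := by rw [mul_one]; exact h3
        _ ≤ _ := mul_le_mul_right h2 _
    exact (h1.trans_lt (ENNReal.natCast_lt_top _)).ne
  have hA : ∀ j, j ≤ K → ∀ s : ℝ, 1 ≤ s → μ j s ≤ A * ENNReal.ofReal (s ^ k) := by
    intro j hj s hs
    have hpos : 0 < s ^ k := by positivity
    have h1 : μ j s / ENNReal.ofReal (s ^ k) ≤ A := by
      rw [hAdef]
      refine le_trans ?_ (le_iSup _ (⟨j, by omega⟩ : Fin (K + 1)))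
      exact le_iSup (fun s : {s : ℝ // 1 ≤ s} => μ j s / ENNReal.ofReal ((s : ℝ) ^ k)) ⟨s, hs⟩
    rwa [ENNReal.div_le_iff (by simpa using hpos) ENNReal.ofReal_ne_top] at h1
  -- the recursion
  have hstep : ∀ j, j ≤ K → ∀ s : ℝ, 1 ≤ s →
      μ j s ≤ ENNReal.ofReal (5 * C * s ^ k) + A * ENNReal.ofReal (s ^ k / 2) := by
    intro j hj s hs
    have hs0 : 0 < s := by linarith
    set X : ℝ := s ^ (12 * κ ^ 2) with hX
    have hX0 : 0 ≤ X := by positivity
    have hterm : ∀ l ∈ Finset.range j,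
        ENNReal.ofReal (C * ((2 ^ l * m0 : ℕ) : ℝ) ^ (-(1 / (6 * (κ : ℝ))))) *
          mun d lam (thr κ m0) L (2 ^ (l + 1) * m0) (gmaj d κ 1 s) ≤
        ENNReal.ofReal (2 * C * s ^ κ *
          (if ((2 ^ l * m0 : ℕ) : ℝ) < X then ((2 ^ l * m0 : ℕ) : ℝ) else 0)) +
        A * ENNReal.ofReal (C * Kc * s ^ k * ((2 ^ l * m0 : ℕ) : ℝ) ^ (-γ)) := by
      intro l hl
      rw [Finset.mem_range] at hl
      have hml : (1 : ℝ) ≤ ((2 ^ l * m0 : ℕ) : ℝ) := by
        have : 1 ≤ 2 ^ l * m0 := Nat.mul_pos (by positivity) hm1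
        exact_mod_cast this
      have hβ : ((2 ^ l * m0 : ℕ) : ℝ) ^ (-(1 / (6 * (κ : ℝ)))) ≤ 1 :=
        Real.rpow_le_one_of_one_le_of_nonpos hml (by
          have : (0 : ℝ) ≤ 1 / (6 * (κ : ℝ)) := by positivity
          linarith)
      have hdouble : ((2 ^ (l + 1) * m0 : ℕ) : ℝ) = 2 * ((2 ^ l * m0 : ℕ) : ℝ) := by
        push_cast; ring
      split_ifs with h
      · refine le_trans ?_ le_self_add
        have h1 := mun_le hPr hGF hI hd1 lam (thr κ m0) L (2 ^ (l + 1) * m0) (gmaj d κ 1 s)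
          (ENNReal.ofReal (s ^ κ)) (gmaj_le_const (by omega) hs)
        calc _ ≤ ENNReal.ofReal C * (((2 ^ (l + 1) * m0 : ℕ) : ℝ≥0∞) * ENNReal.ofReal (s ^ κ)) := by
              apply mul_le_mul' _ h1
              apply ENNReal.ofReal_le_ofReal
              calc C * ((2 ^ l * m0 : ℕ) : ℝ) ^ (-(1 / (6 * (κ : ℝ)))) ≤ C * 1 := by gcongr
                _ = C := mul_one C
          _ = ENNReal.ofReal (2 * C * s ^ κ * ((2 ^ l * m0 : ℕ) : ℝ)) := by
              rw [← ENNReal.ofReal_natCast, hdouble, ← ENNReal.ofReal_mul (by positivity),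
                ← ENNReal.ofReal_mul (by positivity)]
              congr 1
              ring
      · push Not at h
        rw [mul_zero, ENNReal.ofReal_zero, zero_add]
        have hAl := hA (l + 1) (by omega)
        have h1 := mun_gmaj hM lam (thr κ m0) L (2 ^ (l + 1) * m0) κ k A hκk hAl s hs
        -- s ^ κ ≤ m_l ^ γ
        have h2 : s ^ κ ≤ ((2 ^ l * m0 : ℕ) : ℝ) ^ γ := by
          have h3 : (s ^ κ) ^ (12 * κ) ≤ (((2 ^ l * m0 : ℕ) : ℝ) ^ γ) ^ (12 * κ) := by
            have h4 : (((2 ^ l * m0 : ℕ) : ℝ) ^ γ) ^ (12 * κ) = ((2 ^ l * m0 : ℕ) : ℝ) := by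
              rw [← Real.rpow_natCast, ← Real.rpow_mul (by positivity)]
              have h5 : γ * ((12 * κ : ℕ) : ℝ) = 1 := by
                rw [hγ]; push_cast; field_simp
              rw [h5, Real.rpow_one]
            rw [h4, ← pow_mul]
            have h6 : κ * (12 * κ) = 12 * κ ^ 2 := by ring
            rw [h6]
            exact h
          exact (pow_le_pow_iff_left₀ (by positivity) (by positivity) (by omega)).1 h3
        have h3 : ((2 ^ l * m0 : ℕ) : ℝ) ^ (-(1 / (6 * (κ : ℝ)))) * s ^ κ ≤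
            ((2 ^ l * m0 : ℕ) : ℝ) ^ (-γ) := by
          calc _ ≤ ((2 ^ l * m0 : ℕ) : ℝ) ^ (-(1 / (6 * (κ : ℝ)))) * ((2 ^ l * m0 : ℕ) : ℝ) ^ γ := by
                gcongr
            _ = ((2 ^ l * m0 : ℕ) : ℝ) ^ (-γ) := by
                rw [← Real.rpow_add (by linarith)]
                congr 1
                rw [hγ]
                field_simp
                ring
        calc _ ≤ ENNReal.ofReal (C * ((2 ^ l * m0 : ℕ) : ℝ) ^ (-(1 / (6 * (κ : ℝ))))) *
              (A * ENNReal.ofReal ((4 ^ k + 2 ^ k * 2) * s ^ (κ + k))) := mul_le_mul_right h1 _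
          _ = A * ENNReal.ofReal (C * Kc * s ^ k *
              (((2 ^ l * m0 : ℕ) : ℝ) ^ (-(1 / (6 * (κ : ℝ)))) * s ^ κ)) := by
              rw [mul_left_comm, ← ENNReal.ofReal_mul (by positivity)]
              congr 2
              rw [pow_add]
              ring
          _ ≤ _ := by
              apply mul_le_mul_right
              apply ENNReal.ofReal_le_ofReal
              gcongr
    have hsum1 := (small_sum m0 X hX0 j).1
    have hsum2 := geom_bound γ hγ0 m0 hm1 j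
    calc μ j s ≤ ENNReal.ofReal (C * s ^ κ) + ∑ l ∈ Finset.range j,
          ENNReal.ofReal (C * ((2 ^ l * m0 : ℕ) : ℝ) ^ (-(1 / (6 * (κ : ℝ))))) *
            mun d lam (thr κ m0) L (2 ^ (l + 1) * m0) (gmaj d κ 1 s) := hrec m0 j L s hm1 hs
      _ ≤ ENNReal.ofReal (C * s ^ κ) + ∑ l ∈ Finset.range j, (ENNReal.ofReal (2 * C * s ^ κ *
          (if ((2 ^ l * m0 : ℕ) : ℝ) < X then ((2 ^ l * m0 : ℕ) : ℝ) else 0)) +
          A * ENNReal.ofReal (C * Kc * s ^ k * ((2 ^ l * m0 : ℕ) : ℝ) ^ (-γ))) := by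
          gcongr with l hl
          exact hterm l hl
      _ = ENNReal.ofReal (C * s ^ κ) + (ENNReal.ofReal (2 * C * s ^ κ * ∑ l ∈ Finset.range j,
          (if ((2 ^ l * m0 : ℕ) : ℝ) < X then ((2 ^ l * m0 : ℕ) : ℝ) else 0)) +
          A * ENNReal.ofReal (C * Kc * s ^ k *
            ∑ l ∈ Finset.range j, ((2 ^ l * m0 : ℕ) : ℝ) ^ (-γ))) := by
          rw [Finset.sum_add_distrib, ← Finset.mul_sum,
            ← ENNReal.ofReal_sum_of_nonneg (fun l _ => by split_ifs <;> positivity),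
            ← ENNReal.ofReal_sum_of_nonneg (fun l _ => by positivity), ← Finset.mul_sum,
            ← Finset.mul_sum]
      _ ≤ ENNReal.ofReal (C * s ^ k) + (ENNReal.ofReal (4 * C * s ^ k) +
          A * ENNReal.ofReal (s ^ k / 2)) := by
          have hsk : s ^ κ ≤ s ^ k := pow_le_pow_right₀ hs (by rw [hk]; nlinarith)
          have hsx : s ^ κ * X ≤ s ^ k := by
            rw [hX, ← pow_add]
            exact pow_le_pow_right₀ hs (by rw [hk]; nlinarith)
          apply add_le_add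
          · apply ENNReal.ofReal_le_ofReal
            gcongr
          · apply add_le_add
            · apply ENNReal.ofReal_le_ofReal
              calc _ ≤ 2 * C * s ^ κ * (2 * X) := by gcongr
                _ = 4 * C * (s ^ κ * X) := by ring
                _ ≤ 4 * C * s ^ k := by gcongr
            · apply mul_le_mul_right
              apply ENNReal.ofReal_le_ofReal
              calc C * Kc * s ^ k * ∑ l ∈ Finset.range j, ((2 ^ l * m0 : ℕ) : ℝ) ^ (-γ)
                  ≤ C * Kc * s ^ k * ((m0 : ℝ) ^ (-γ) / (1 - q)) := by gcongr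
                _ = s ^ k * (C * Kc * ((m0 : ℝ) ^ (-γ) / (1 - q))) := by ring
                _ ≤ s ^ k * (1 / 2) := by gcongr
                _ = s ^ k / 2 := by ring
      _ = ENNReal.ofReal (5 * C * s ^ k) + A * ENNReal.ofReal (s ^ k / 2) := by
          rw [← add_assoc, ← ENNReal.ofReal_add (by positivity) (by positivity)]
          congr 2
          ring
  -- conclusion
  have hA2 : A ≤ ENNReal.ofReal (5 * C) + A / 2 := by
    rw [hAdef]
    apply iSup_le
    intro j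
    apply iSup_le
    intro s
    rw [← hAdef]
    apply ENNReal.div_le_of_le_mul
    refine (hstep j (by omega) s s.2).trans (le_of_eq ?_)
    have h2 : ENNReal.ofReal ((s : ℝ) ^ k / 2) = ENNReal.ofReal ((s : ℝ) ^ k) / 2 := by
      rw [ENNReal.ofReal_div_of_pos (by norm_num)]
      simp
    rw [add_mul, ← ENNReal.ofReal_mul (by positivity), h2]
    congr 1
    rw [ENNReal.div_eq_inv_mul, ENNReal.div_eq_inv_mul]
    ring
  have hA3 := half_absorb A _ hAfin hA2
  intro s hs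
  refine (hA K le_rfl s hs).trans ?_
  calc A * ENNReal.ofReal (s ^ k) ≤ (2 * ENNReal.ofReal (5 * C)) * ENNReal.ofReal (s ^ k) := by
        gcongr
    _ = ENNReal.ofReal (10 * C * s ^ k) := by
        have h2 : (2 : ℝ≥0∞) = ENNReal.ofReal 2 := by simp
        conv_lhs => rw [h2]
        rw [← ENNReal.ofReal_mul (by norm_num), ← ENNReal.ofReal_mul (by positivity)]
        congr 1
        ring

end Pool.Agent.Lib.MP_5349a4_pr.H17
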