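import Pool.Agent.Lib.MP_5349a4_pr.M.Iface2
import Pool.Agent.Lib.MP_5349a4_pr.M.Base

/-!
# Module RAD (inside (5.5) of Paper.md): `1/|x|` is a strict supersolution for the steps `|x|/4`
-/

set_option autoImplicit false
open MeasureTheory Set
open scoped ENNReal NNReal

namespace Pool.Agent.Lib.MP_5349a4_pr.H17

open Pool.Agent.Lib.MP_5349a4_pr

theorem rad_elem (v : ℝ) (hv : -(5 / 9) ≤ v) : 1 ≤ (1 - v / 2 + v ^ 2) ^ 2 * (1 + v) := by
  have h1 : (1 - v / 2 + v ^ 2) ^ 2 * (1 + v) - 1 = v ^ 2 * (5 / 4 * (1 + v) + v ^ 3) := by ring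
  have h2 : 0 ≤ 5 / 4 * (1 + v) + v ^ 3 := by
    have h3 : 5 / 4 * (1 + v) + v ^ 3 - (5 / 4 * (4 / 9) - 125 / 729)
        = (v + 5 / 9) * (5 / 4 + (v ^ 2 - 5 / 9 * v + 25 / 81)) := by ring
    have h4 : 0 ≤ v ^ 2 - 5 / 9 * v + 25 / 81 := by nlinarith [sq_nonneg (v - 5 / 18)]
    have h5 : 0 ≤ (v + 5 / 9) * (5 / 4 + (v ^ 2 - 5 / 9 * v + 25 / 81)) :=
      mul_nonneg (by linarith) (by linarith)
    linarith
  have h6 : 0 ≤ v ^ 2 * (5 / 4 * (1 + v) + v ^ 3) := mul_nonneg (sq_nonneg v) h2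
  linarith

/-- pointwise bound -/
theorem rad_point {d : ℕ} (x y u : Eu d) (hx : 12 ≤ ‖x‖) (hu : ‖u‖ = 1) (hxu : x = ‖x‖ • u)
    (hy : ‖y‖ ≤ ‖x‖ / 4 + 1) :
    1 / ‖x + y‖ ≤ (1 / ‖x‖) * (1 - inner ℝ y u / ‖x‖ - (‖y‖ / ‖x‖) ^ 2 / 2
      + 4 * (inner ℝ y u / ‖x‖) ^ 2 + 4 * (inner ℝ y u / ‖x‖) * (‖y‖ / ‖x‖) ^ 2
      + (‖y‖ / ‖x‖) ^ 4) := by
  have hx0 : 0 < ‖x‖ := by linarith
  set q := inner ℝ y u / ‖x‖ with hq
  set t := ‖y‖ / ‖x‖ with ht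
  have ht0 : 0 ≤ t := by positivity
  have ht3 : t ≤ 1 / 3 := by
    rw [ht, div_le_iff₀ hx0]
    linarith
  have hqt : -t ≤ q := by
    have h1 : |inner ℝ y u| ≤ ‖y‖ * ‖u‖ := abs_real_inner_le_norm y u
    rw [hu, mul_one] at h1
    have h2 := (abs_le.1 h1).1
    rw [hq, ht, ← neg_div]
    exact div_le_div_of_nonneg_right h2 hx0.le
  have hsq : ‖x + y‖ ^ 2 = ‖x‖ ^ 2 * (1 + (2 * q + t ^ 2)) := by
    rw [norm_add_sq_real]
    have h1 : inner ℝ x y = ‖x‖ * inner ℝ y u := by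
      conv_lhs => rw [hxu]
      rw [real_inner_smul_left, real_inner_comm]
    rw [h1, hq, ht]
    field_simp
    ring
  have hv : -(5 / 9) ≤ 2 * q + t ^ 2 := by nlinarith
  have hel := rad_elem _ hv
  have hw0 : 0 < 1 - (2 * q + t ^ 2) / 2 + (2 * q + t ^ 2) ^ 2 := by
    nlinarith [sq_nonneg ((2 * q + t ^ 2) - 1 / 4)]
  have hn0 : 0 < ‖x + y‖ := by
    have h1 : 0 < ‖x + y‖ ^ 2 := by
      rw [hsq]
      have : 0 < 1 + (2 * q + t ^ 2) := by linarith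
      positivity
    rcases (norm_nonneg (x + y)).eq_or_lt with h | h
    · rw [← h] at h1
      norm_num at h1
    · exact h
  have hmain : ‖x‖ ≤ (1 - (2 * q + t ^ 2) / 2 + (2 * q + t ^ 2) ^ 2) * ‖x + y‖ := by
    rw [← sq_le_sq₀ hx0.le (by positivity), mul_pow, hsq]
    have h1 : ‖x‖ ^ 2 * 1 ≤ ‖x‖ ^ 2 *
        ((1 - (2 * q + t ^ 2) / 2 + (2 * q + t ^ 2) ^ 2) ^ 2 * (1 + (2 * q + t ^ 2))) :=
      mul_le_mul_of_nonneg_left hel (by positivity)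
    linarith
  rw [div_le_iff₀ hn0]
  have h2 : 1 ≤ (1 / ‖x‖) * ((1 - (2 * q + t ^ 2) / 2 + (2 * q + t ^ 2) ^ 2) * ‖x + y‖) := by
    rw [one_div, ← div_eq_inv_mul, one_le_div hx0]
    exact hmain
  refine h2.trans (le_of_eq ?_)
  ring

theorem rad (hslb : SlbStatement) (hrot : RotStatement) : RadStatement := by
  intro d hd hT lam hH x hx
  have hd1 : 1 ≤ d := by omega
  have hdR : (29 : ℝ) ≤ d := by exact_mod_cast hd
  obtain ⟨_, hex, _⟩ := hslb d hd1 hT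
  have hx0 : 0 < ‖x‖ := by linarith
  have hs0 : 0 ≤ ‖x‖ / 4 := by linarith
  obtain ⟨hm, hinv, hsupp⟩ := hex lam (‖x‖ / 4) hs0
  set w : Eu d → ℝ≥0∞ := ex lam (‖x‖ / 4) with hw
  set u : Eu d := (1 / ‖x‖) • x with hu
  have hu1 : ‖u‖ = 1 := by
    rw [hu, norm_smul, norm_div, norm_one, norm_norm, one_div, inv_mul_cancel₀ hx0.ne']
  have hxu : x = ‖x‖ • u := by
    rw [hu, smul_smul, mul_one_div_cancel hx0.ne', one_smul]
  obtain ⟨hr1, _⟩ := hrot d hd1 w hm hinv u hu1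
  have hinn : Measurable fun y : Eu d => (inner ℝ y u : ℝ) :=
    (continuous_id.inner continuous_const).measurable
  have hmF : Measurable fun y : Eu d => w y * ENNReal.ofReal (1 / ‖x + y‖) := by
    apply hm.mul
    apply ENNReal.measurable_ofReal.comp
    exact measurable_const.div (measurable_const.add measurable_id).norm
  -- symmetrization
  have hneg : ∫⁻ y, w y * ENNReal.ofReal (1 / ‖x + y‖) = ∫⁻ y, w y * ENNReal.ofReal (1 / ‖x + -y‖) := by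
    rw [← lintegral_neg_eq_self (fun y => w y * ENNReal.ofReal (1 / ‖x + y‖))]
    apply lintegral_congr
    intro y
    have h1 : w (-y) = w y := by
      have := hinv (LinearIsometryEquiv.neg ℝ) y
      simpa using this
    rw [h1]
  have h2I : 2 * ∫⁻ y, w y * ENNReal.ofReal (1 / ‖x + y‖) ≤
      ∫⁻ y, (w y * ENNReal.ofReal ((2 / ‖x‖) * (1 - (‖y‖ / ‖x‖) ^ 2 / 2 + (‖y‖ / ‖x‖) ^ 4)) +
        ENNReal.ofReal (8 / ‖x‖ ^ 3) * (w y * ENNReal.ofReal ((inner ℝ y u) ^ 2))) := by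
    rw [two_mul]
    nth_rewrite 2 [hneg]
    rw [← lintegral_add_left hmF]
    apply lintegral_mono
    intro y
    by_cases hwy : w y = 0
    · simp [hwy]
    obtain ⟨h1, h2⟩ := hsupp y hwy
    have k1 := rad_point x y u hx hu1 hxu h2
    have k2 := rad_point x (-y) u hx hu1 hxu (by rwa [norm_neg])
    rw [norm_neg, inner_neg_left] at k2
    have hA0 : 0 ≤ (2 / ‖x‖) * (1 - (‖y‖ / ‖x‖) ^ 2 / 2 + (‖y‖ / ‖x‖) ^ 4) := by
      have : 0 ≤ 1 - (‖y‖ / ‖x‖) ^ 2 / 2 + (‖y‖ / ‖x‖) ^ 4 := by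
        nlinarith [sq_nonneg ((‖y‖ / ‖x‖) ^ 2 - 1 / 4)]
      positivity
    show w y * ENNReal.ofReal (1 / ‖x + y‖) + w y * ENNReal.ofReal (1 / ‖x + -y‖) ≤
      w y * ENNReal.ofReal ((2 / ‖x‖) * (1 - (‖y‖ / ‖x‖) ^ 2 / 2 + (‖y‖ / ‖x‖) ^ 4)) +
        ENNReal.ofReal (8 / ‖x‖ ^ 3) * (w y * ENNReal.ofReal ((inner ℝ y u) ^ 2))
    rw [← mul_add, mul_left_comm, ← mul_add]
    apply mul_le_mul_right
    rw [← ENNReal.ofReal_add (by positivity) (by positivity),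
      ← ENNReal.ofReal_mul (by positivity), ← ENNReal.ofReal_add hA0 (by positivity)]
    apply ENNReal.ofReal_le_ofReal
    refine (add_le_add k1 k2).trans (le_of_eq ?_)
    field_simp
    ring
  have hm2 : Measurable fun y : Eu d => w y * ENNReal.ofReal ((inner ℝ y u) ^ 2) :=
    hm.mul (ENNReal.measurable_ofReal.comp (hinn.pow_const 2))
  rw [lintegral_add_right _ (hm2.const_mul _), lintegral_const_mul _ hm2] at h2I
  have hd0 : (d : ℝ≥0∞) ≠ 0 := by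
    rw [Ne, Nat.cast_eq_zero]; omega
  have hr2 : ∫⁻ y, w y * ENNReal.ofReal ((inner ℝ y u) ^ 2)
      = ENNReal.ofReal (1 / d) * ∫⁻ y, w y * ENNReal.ofReal (‖y‖ ^ 2) := by
    rw [← hr1, ← mul_assoc, ← ENNReal.ofReal_natCast d, ← ENNReal.ofReal_mul (by positivity),
      one_div, inv_mul_cancel₀ (by linarith), ENNReal.ofReal_one, one_mul]
  have hm3 : Measurable fun y : Eu d => w y * ENNReal.ofReal (‖y‖ ^ 2) :=
    hm.mul (ENNReal.measurable_ofReal.comp (measurable_norm.pow_const 2))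
  rw [hr2, ← mul_assoc, ← ENNReal.ofReal_mul (by positivity), ← lintegral_const_mul _ hm3,
    ← lintegral_add_right _ (hm3.const_mul _)] at h2I
  have hphi : ∫⁻ y, w y ≤ 1 + (gd d : ℝ≥0∞) := hH _ hs0
  have h3 : 2 * ∫⁻ y, w y * ENNReal.ofReal (1 / ‖x + y‖) ≤
      (1 + (gd d : ℝ≥0∞)) * ENNReal.ofReal ((2 / ‖x‖) * (1 - 1 / 64)) := by
    refine h2I.trans ?_
    refine le_trans (lintegral_mono (g := fun y => w y * ENNReal.ofReal ((2 / ‖x‖) * (1 - 1 / 64)))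
      ?_) ?_
    · intro y
      by_cases hwy : w y = 0
      · simp [hwy]
      obtain ⟨h1, h2⟩ := hsupp y hwy
      show w y * _ + ENNReal.ofReal _ * (w y * _) ≤ w y * _
      rw [mul_left_comm, ← mul_add]
      apply mul_le_mul_right
      have hA0 : 0 ≤ (2 / ‖x‖) * (1 - (‖y‖ / ‖x‖) ^ 2 / 2 + (‖y‖ / ‖x‖) ^ 4) := by
        have : 0 ≤ 1 - (‖y‖ / ‖x‖) ^ 2 / 2 + (‖y‖ / ‖x‖) ^ 4 := by
          nlinarith [sq_nonneg ((‖y‖ / ‖x‖) ^ 2 - 1 / 4)]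
        positivity
      rw [← ENNReal.ofReal_mul (by positivity), ← ENNReal.ofReal_add hA0 (by positivity)]
      apply ENNReal.ofReal_le_ofReal
      have ht1 : 1 / 4 ≤ ‖y‖ / ‖x‖ := by
        rw [le_div_iff₀ hx0]; linarith
      have ht3 : ‖y‖ / ‖x‖ ≤ 1 / 3 := by
        rw [div_le_iff₀ hx0]; linarith
      have e1 : (2 / ‖x‖) * (1 - (‖y‖ / ‖x‖) ^ 2 / 2 + (‖y‖ / ‖x‖) ^ 4)
          + 8 / ‖x‖ ^ 3 * (1 / (d : ℝ)) * ‖y‖ ^ 2
          = (2 / ‖x‖) * (1 - (‖y‖ / ‖x‖) ^ 2 * (1 / 2 - (‖y‖ / ‖x‖) ^ 2 - 4 * (1 / (d : ℝ)))) := by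
        field_simp
        ring
      rw [e1]
      apply mul_le_mul_of_nonneg_left _ (by positivity)
      generalize ‖y‖ / ‖x‖ = t at ht1 ht3
      have hd2 : 1 / (d : ℝ) ≤ 1 / 29 := one_div_le_one_div_of_le (by norm_num) hdR
      have ht2 : t ^ 2 ≤ 1 / 9 := by nlinarith
      have ht4 : 1 / 16 ≤ t ^ 2 := by nlinarith
      have h5 : (1 : ℝ) / 4 ≤ 1 / 2 - t ^ 2 - 4 * (1 / (d : ℝ)) := by
        have : (4 : ℝ) * (1 / 29) ≤ 1 / 2 - 1 / 9 - 1 / 4 := by norm_num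
        linarith
      nlinarith
    · rw [lintegral_mul_const _ hm]
      exact mul_le_mul_left hphi _
  have h4 : (1 + (gd d : ℝ≥0∞)) * ENNReal.ofReal ((2 / ‖x‖) * (1 - 1 / 64)) ≤
      2 * ENNReal.ofReal ((1 - 1 / 128) / ‖x‖) := by
    have e1 : (1 + (gd d : ℝ≥0∞)) = ENNReal.ofReal (1 + (gd d : ℝ)) := by
      rw [ENNReal.ofReal_add zero_le_one (NNReal.coe_nonneg _), ENNReal.ofReal_one,
        ENNReal.ofReal_coe_nnreal]
    have e2 : ∀ b : ℝ, 2 * ENNReal.ofReal b = ENNReal.ofReal (2 * b) := by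
      intro b
      rw [ENNReal.ofReal_mul (by norm_num)]
      simp
    rw [e1, e2, ← ENNReal.ofReal_mul (by positivity)]
    apply ENNReal.ofReal_le_ofReal
    have hg : (gd d : ℝ) ≤ 1 / 6400 := by
      unfold gd
      push_cast
      apply one_div_le_one_div_of_le (by norm_num)
      linarith
    have e3 : (1 + (gd d : ℝ)) * ((2 / ‖x‖) * (1 - 1 / 64))
        = (2 / ‖x‖) * ((1 + (gd d : ℝ)) * (1 - 1 / 64)) := by ring
    have e4 : 2 * ((1 - 1 / 128) / ‖x‖) = (2 / ‖x‖) * (1 - 1 / 128) := by ring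
    rw [e3, e4]
    apply mul_le_mul_of_nonneg_left _ (by positivity)
    linarith
  have h5 := h3.trans h4
  exact (ENNReal.mul_le_mul_iff_right (by norm_num) (by norm_num)).1 h5

end Pool.Agent.Lib.MP_5349a4_pr.H17
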